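import Pool.Agent.H43.Bex7

namespace Pool.Agent.Results.MP_842b9f_an.Cex

open Set Filter Topology MeasureTheory

/-- `ε` is a `β`-expansion of `x` over the alphabet `{0, …, ⌈β⌉ - 1}`
(`ε i` is the digit of index `i + 1`). -/
def IsExpansion (β x : ℝ) (ε : ℕ → ℕ) : Prop :=
  (∀ i, ε i < ⌈β⌉₊) ∧ HasSum (fun i => (ε i : ℝ) / β ^ (i + 1)) x

/-- The digit `j` has frequency `p` in `ε`. -/
def HasFreq (ε : ℕ → ℕ) (j : ℕ) (p : ℝ) : Prop :=
  Tendsto (fun n : ℕ => (((Finset.range n).filter fun i => ε i = j).card : ℝ) / n) atTop (𝓝 p)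

/-- Almost variational frequency base (tested on probability vectors). -/
def AlmostVariational (β : ℝ) : Prop :=
  ∃ c > 0, ∀ p : ℕ → ℝ,
    (∀ j < ⌈β⌉₊, 0 ≤ p j ∧ p j ∈ Icc (1 / (⌈β⌉₊ : ℝ) - c) (1 / (⌈β⌉₊ : ℝ) + c)) →
    ∑ j ∈ Finset.range ⌈β⌉₊, p j = 1 →
    ∀ᵐ x ∂(volume.restrict (Icc 0 (((⌈β⌉₊ : ℝ) - 1) / (β - 1)))),
      ∃ ε, IsExpansion β x ε ∧ ∀ j < ⌈β⌉₊, HasFreq ε j (p j)

open Pool.Agent.H43.Bex in
theorem result : 1 < 1 + √3 ∧ (∀ n : ℤ, 1 + √3 ≠ n) ∧ ¬ AlmostVariational (1 + √3) := by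
  have s3 : √3 * √3 = 3 := Real.mul_self_sqrt (by norm_num)
  have h1 : (2.7 : ℝ) < 1 + √3 := by
    have : (1.7 : ℝ) < √3 := Real.lt_sqrt_of_sq_lt (by norm_num)
    linarith
  have h2 : 1 + √3 < (2.8 : ℝ) := by
    have : √3 < (1.8 : ℝ) := (Real.sqrt_lt' (by norm_num)).2 (by norm_num)
    linarith
  have hq : (1 + √3) * (1 + √3) = 2 * (1 + √3) + 2 := by linarith
  generalize 1 + √3 = β at h1 h2 hq
  have hc : ⌈β⌉₊ = 3 := (Nat.ceil_eq_iff (by norm_num)).2 ⟨by norm_num; linarith, by norm_num; linarith⟩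
  refine ⟨by linarith, fun n hn => ?_, fun ⟨c, c0, h⟩ => ?_⟩
  · have a : (2 : ℝ) < n := by linarith
    have b : (n : ℝ) < 3 := by linarith
    have a' : 2 < n := by exact_mod_cast a
    have b' : n < 3 := by exact_mod_cast b
    omega
  set t := min c (1 / 3) with ht
  have t0 : 0 < t := lt_min c0 (by norm_num)
  have t1 : t ≤ c := min_le_left _ _
  have t2 : t ≤ 1 / 3 := min_le_right _ _
  simp only [IsExpansion, hc] at h
  have h' := h (fun j => if j = 1 then 1 / 3 - t else 1 / 3 + t / 2)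
    (fun j _ => by split_ifs <;> refine ⟨by linarith, ?_, ?_⟩ <;> push_cast <;> linarith)
    (by simp [Finset.sum_range_succ]; ring)
  have e : (((3 : ℕ) : ℝ) - 1) / (β - 1) = (2 * β - 2) / 3 := by
    rw [div_eq_div_iff (by linarith) (by norm_num)]; push_cast; linarith
  rw [e, ae_restrict_iff' measurableSet_Icc] at h'
  have := Ph_lim hq h1 h2 (q := 1 / 3 - t) (by linarith) (h'.mono fun x hx hx' δ hδ => ?_)
  · linarith
  obtain ⟨ε, ⟨hd, hs⟩, hf⟩ := hx hx'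
  have f1 := hf 1 (by norm_num)
  simp only [HasFreq, if_true] at f1
  refine (f1.eventually (eventually_le_nhds (by linarith : 1 / 3 - t < 1 / 3 - t + δ))).mono
    fun n hn => le_trans (div_le_div_of_nonneg_right ?_ n.cast_nonneg) hn
  rw [Finset.card_filter]
  push_cast
  refine Finset.sum_le_sum fun i _ => ?_
  rcases dominate hq h1 h2 (ε := fun i => ⟨ε i, hd i⟩) hs i with a | a
  · rw [a]; split_ifs <;> norm_num
  · rw [if_pos a]; exact (iM_mem _).2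

end Pool.Agent.Results.MP_842b9f_an.Cex
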